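import Pool.Agent.N990.PT.Stm

/-!
Project PT, subtask PT/DET (helper318, after helper249): a Gibbs state is determined by the laws of
the ends.
-/

set_option autoImplicit false

open MeasureTheory
open Pool.Agent.N988.EA Pool.Agent.N990.PT

namespace Pool.Agent.N318.PT

theorem t_det (h1 : Pool.Agent.N990.PT.S_GEO) (_h2 : Pool.Agent.N990.PT.S_GWF) :
    Pool.Agent.N990.PT.S_DET := by
  intro b q β p μ μ' hμ hμ' hE
  obtain ⟨-, hG1, hG2, hG3, hG4, -, -, -⟩ := h1 b q p
  have hrepl : ∀ n (ω : VInf p → Fin q) σ, (fun y : Pt b n => repl p n ω σ (inc p n y)) =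
      Sum.elim (ends p n ω) σ := by
    intro n ω σ
    funext y
    rcases y with t | x
    · rw [Sum.elim_inl]
      refine (hG4 n ω σ).2 _ fun x hx => ?_
      exact absurd (hG2 n hx) (by simp)
    · exact (hG4 n ω σ).1 x
  have hmeas : ∀ n, Measurable (fun (ω : VInf p → Fin q) (y : Pt b n) => ω (inc p n y)) :=
    fun n => measurable_pi_lambda _ fun y => measurable_pi_apply _
  have key : ∀ ν : Measure (VInf p → Fin q), IsGibbs β p ν → ∀ (n : ℕ) (A : Set (Pt b n → Fin q)),
      MeasurableSet A → (ν.map fun (ω : VInf p → Fin q) (y : Pt b n) => ω (inc p n y)).real A =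
        ∫ ω, (fun τ : Bool → Fin q => ∑ σ : Vert b n → Fin q, gw β n τ σ *
          A.indicator (fun _ => (1 : ℝ)) (Sum.elim τ σ)) (ends p n ω) ∂ν := by
    intro ν hν n A hA
    have h := hν.dlr n (fun ω => A.indicator (fun _ => (1 : ℝ)) (fun y => ω (inc p n y)))
      ((measurable_const.indicator hA).comp (hmeas n)) ⟨1, fun ω => by
        by_cases h : (fun y => ω (inc p n y)) ∈ A
        · rw [Set.indicator_of_mem h, abs_one]
        · rw [Set.indicator_of_notMem h, abs_zero]; exact zero_le_one⟩
    simp only [hrepl] at h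
    rw [← integral_map (φ := fun (ω : VInf p → Fin q) (y : Pt b n) => ω (inc p n y))
      (f := A.indicator fun _ => (1 : ℝ)) (hmeas n).aemeasurable
      (measurable_const.indicator hA).aestronglyMeasurable] at h
    have h4 : ∫ η, A.indicator (fun _ => (1 : ℝ)) η
        ∂(ν.map fun (ω : VInf p → Fin q) (y : Pt b n) => ω (inc p n y)) =
        (ν.map fun (ω : VInf p → Fin q) (y : Pt b n) => ω (inc p n y)).real A :=
      integral_indicator_one hA
    rw [← h4]
    exact h
  have hmap : ∀ n, (μ.map fun (ω : VInf p → Fin q) (y : Pt b n) => ω (inc p n y)) =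
      μ'.map fun (ω : VInf p → Fin q) (y : Pt b n) => ω (inc p n y) := by
    intro n
    have hp1 := hμ.prob
    have hp2 := hμ'.prob
    ext A hA
    have h4 := key μ hμ n A hA
    have h5 := key μ' hμ' n A hA
    have h6 := hE n (fun τ : Bool → Fin q => ∑ σ : Vert b n → Fin q, gw β n τ σ *
          A.indicator (fun _ => (1 : ℝ)) (Sum.elim τ σ))
    have h7 := h4.trans (h6.trans h5.symm)
    have hq1 : IsProbabilityMeasure
        (μ.map fun (ω : VInf p → Fin q) (y : Pt b n) => ω (inc p n y)) :=
      Measure.isProbabilityMeasure_map (hmeas n).aemeasurable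
    have hq2 : IsProbabilityMeasure
        (μ'.map fun (ω : VInf p → Fin q) (y : Pt b n) => ω (inc p n y)) :=
      Measure.isProbabilityMeasure_map (hmeas n).aemeasurable
    exact (ENNReal.toReal_eq_toReal_iff' (measure_ne_top _ _) (measure_ne_top _ _)).1 h7
  have hup : ∀ (v : VInf p) (n m : ℕ), n ≤ m → (∃ x, inc p n x = v) → ∃ x, inc p m x = v := by
    intro v n m hnm
    induction m, hnm using Nat.le_induction with
    | base => exact id
    | succ m _ ih =>
      intro h
      obtain ⟨x, hx⟩ := ih h
      exact ⟨emb (p m).1 (p m).2 x, by rw [hG1, hx]⟩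
  have hfin : ∀ I : Finset (VInf p), ∃ n, ∀ v ∈ I, ∃ x, inc p n x = v := by
    intro I
    choose N hN using hG3
    exact ⟨I.sup N, fun v hv => hup v _ _ (Finset.le_sup hv) (hN v)⟩
  have hp1 := hμ.prob
  have hp2 := hμ'.prob
  have hres : ∀ I : Finset (VInf p), Measurable (I.restrict (π := fun _ : VInf p => Fin q)) :=
    fun I => Finset.measurable_restrict I
  refine IsProjectiveLimit.unique (P := fun I => μ'.map (I.restrict (π := fun _ : VInf p => Fin q)))
    (fun I => ?_) (fun I => rfl)
  obtain ⟨n, hn⟩ := hfin I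
  choose y hy using hn
  have hs : Measurable fun (η : Pt b n → Fin q) (i : I) => η (y i.1 i.2) :=
    measurable_pi_lambda _ fun i => measurable_pi_apply _
  have e : (I.restrict (π := fun _ : VInf p => Fin q)) =
      (fun (η : Pt b n → Fin q) (i : I) => η (y i.1 i.2)) ∘
        fun (ω : VInf p → Fin q) (y : Pt b n) => ω (inc p n y) := by
    funext ω i
    show ω i = ω (inc p n (y i.1 i.2))
    rw [hy]
  show μ.map _ = μ'.map _
  rw [e, ← Measure.map_map hs (hmeas n), ← Measure.map_map hs (hmeas n), hmap n]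

end Pool.Agent.N318.PT
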